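import Pool.Agent.MP_bbd370_an.Defs
import Mathlib

section

set_option autoImplicit false

open Set MeasureTheory Filter Topology
open scoped ENNReal NNReal

namespace Pool.Agent.MP_bbd370_an

/-- The measure `x dx` on the positive half line. -/
noncomputable def massMeasure : Measure ℝ :=
  (volume.restrict (Ioi (0 : ℝ))).withDensity fun x => ENNReal.ofReal x

/-- The complex Banach space of integrable functions for the measure `x dx`. -/
abbrev X1 : Type := Lp ℂ 1 massMeasure

/-- ramp function -/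
def ramp (z : ℝ) : ℝ := max 0 (min 1 z)

lemma continuous_ramp : Continuous ramp := by unfold ramp; fun_prop
lemma ramp_nonneg (z : ℝ) : 0 ≤ ramp z := le_max_left _ _
lemma ramp_le_one (z : ℝ) : ramp z ≤ 1 := max_le zero_le_one (min_le_left _ _)
lemma ramp_of_nonpos {z : ℝ} (h : z ≤ 0) : ramp z = 0 := max_eq_left ((min_le_right _ _).trans h)
lemma ramp_of_one_le {z : ℝ} (h : 1 ≤ z) : ramp z = 1 := by
  rw [ramp, min_eq_left h, max_eq_right zero_le_one]

variable (c : ℝ≥0)

/-- speed in logarithmic size -/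
def spd (z : ℝ) : ℝ := 1 + c * ramp z

lemma one_le_spd (z : ℝ) : 1 ≤ spd c z := le_add_of_nonneg_right (mul_nonneg c.2 (ramp_nonneg z))
lemma spd_pos (z : ℝ) : 0 < spd c z := one_pos.trans_le (one_le_spd c z)
lemma spd_le (z : ℝ) : spd c z ≤ 1 + c := by
  have := mul_le_mul_of_nonneg_left (ramp_le_one z) c.2
  unfold spd
  simpa using this
lemma continuous_spd : Continuous (spd c) :=
  continuous_const.add (continuous_const.mul continuous_ramp)

/-- logarithmic size as a function of flow time -/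
noncomputable def lsz (z : ℝ) : ℝ := ∫ s in (0 : ℝ)..z, spd c s

lemma hasDerivAt_lsz (z : ℝ) : HasDerivAt (lsz c) (spd c z) z :=
  ((continuous_spd c).integral_hasStrictDerivAt 0 z).hasDerivAt

lemma continuous_lsz : Continuous (lsz c) :=
  continuous_iff_continuousAt.mpr fun z => (hasDerivAt_lsz c z).continuousAt

lemma lsz_strictMono : StrictMono (lsz c) :=
  strictMono_of_deriv_pos fun z => by rw [(hasDerivAt_lsz c z).deriv]; exact spd_pos c z

lemma lsz_zero : lsz c 0 = 0 := by simp [lsz]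

lemma lsz_sub_mono : Monotone fun z => lsz c z - z :=
  monotone_of_deriv_nonneg
    (fun z => ((hasDerivAt_lsz c z).sub (hasDerivAt_id z)).differentiableAt) fun z => by
      have h : HasDerivAt (fun z => lsz c z - z) (spd c z - 1) z :=
        (hasDerivAt_lsz c z).sub (hasDerivAt_id z)
      rw [h.deriv]; linarith [one_le_spd c z]

lemma lsz_surjective : Function.Surjective (lsz c) := by
  intro s
  have h1 : lsz c (-|s|) - (-|s|) ≤ lsz c 0 - 0 := lsz_sub_mono c (by simp)
  have h2 : lsz c 0 - 0 ≤ lsz c |s| - |s| := lsz_sub_mono c (abs_nonneg s)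
  rw [lsz_zero] at h1 h2
  obtain ⟨z, -, h⟩ := intermediate_value_Icc (by simp : -|s| ≤ |s|)
    (continuous_lsz c).continuousOn
    (show s ∈ Icc _ _ from ⟨by linarith [neg_abs_le s], by linarith [le_abs_self s]⟩)
  exact ⟨z, h⟩

/-- as a homeomorphism -/
noncomputable def lszHomeo : ℝ ≃ₜ ℝ :=
  ((lsz_strictMono c).orderIsoOfSurjective _ (lsz_surjective c)).toHomeomorph

/-- size as a function of flow time -/
noncomputable def xz (z : ℝ) : ℝ := Real.exp (lsz c z)

/-- flow time as a function of size -/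
noncomputable def zx (x : ℝ) : ℝ := (lszHomeo c).symm (Real.log x)

lemma xz_pos (z : ℝ) : 0 < xz c z := Real.exp_pos _

lemma zx_xz (z : ℝ) : zx c (xz c z) = z := by
  rw [zx, xz, Real.log_exp]; exact (lszHomeo c).symm_apply_apply z

lemma lsz_zx (x : ℝ) : lsz c (zx c x) = Real.log x := (lszHomeo c).apply_symm_apply _

lemma xz_zx {x : ℝ} (hx : 0 < x) : xz c (zx c x) = x := by rw [xz, lsz_zx, Real.exp_log hx]

lemma xz_strictMono : StrictMono (xz c) := Real.exp_strictMono.comp (lsz_strictMono c)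

lemma xz_zero : xz c 0 = 1 := by rw [xz, lsz_zero, Real.exp_zero]

lemma range_xz : range (xz c) = Ioi 0 :=
  Subset.antisymm (by rintro _ ⟨z, rfl⟩; exact xz_pos c z) fun x hx => ⟨_, xz_zx c hx⟩

lemma continuous_xz : Continuous (xz c) := Real.continuous_exp.comp (continuous_lsz c)

lemma measurable_zx : Measurable (zx c) :=
  (lszHomeo c).symm.continuous.measurable.comp Real.measurable_log

lemma continuousOn_zx : ContinuousOn (zx c) (Ioi 0) :=
  (lszHomeo c).symm.continuous.comp_continuousOn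
    (Real.continuousOn_log.mono fun _ hx => ne_of_gt hx)

lemma zx_nonpos {x : ℝ} (hx : 0 < x) (h : x ≤ 1) : zx c x ≤ 0 := by
  rw [← (xz_strictMono c).le_iff_le, xz_zx c hx, xz_zero]; exact h

lemma zx_nonneg {x : ℝ} (h : 1 ≤ x) : 0 ≤ zx c x := by
  rw [← (xz_strictMono c).le_iff_le, xz_zx c (one_pos.trans_le h), xz_zero]; exact h

lemma hasDerivAt_xz (z : ℝ) : HasDerivAt (xz c) (xz c z * spd c z) z := (hasDerivAt_lsz c z).exp

/-- growth rate -/
noncomputable def gr (x : ℝ) : ℝ := x * spd c (zx c x)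

/-- fragmentation rate -/
noncomputable def fr (x : ℝ) : ℝ := c * ramp (zx c x)

lemma gr_pos {x : ℝ} (hx : 0 < x) : 0 < gr c x := mul_pos hx (spd_pos c _)

lemma continuousOn_gr : ContinuousOn (gr c) (Ioi 0) :=
  continuousOn_id.mul ((continuous_spd c).comp_continuousOn (continuousOn_zx c))

lemma continuousOn_fr : ContinuousOn (fr c) (Ioi 0) :=
  continuousOn_const.mul (continuous_ramp.comp_continuousOn (continuousOn_zx c))

lemma continuousOn_inv_gr : ContinuousOn (fun x => 1 / gr c x) (Ioi 0) :=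
  continuousOn_const.div (continuousOn_gr c) fun _ hx => (gr_pos c hx).ne'

lemma hasDerivAt_zx {x : ℝ} (hx : 0 < x) : HasDerivAt (zx c) (1 / gr c x) x := by
  have h := HasDerivAt.of_local_left_inverse (f := xz c) (g := zx c) (a := x)
    ((continuousOn_zx c).continuousAt (Ioi_mem_nhds hx)) (hasDerivAt_xz c _)
    (mul_pos (xz_pos c _) (spd_pos c _)).ne'
    (Filter.eventually_of_mem (Ioi_mem_nhds hx) fun y hy => xz_zx c hy)
  rwa [xz_zx c hx, ← one_div] at h

lemma uIcc_subset {x y : ℝ} (hx : 0 < x) (hy : 0 < y) : uIcc x y ⊆ Ioi 0 :=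
  fun _ h => (lt_min hx hy).trans_le h.1

lemma integral_inv_gr {x y : ℝ} (hx : 0 < x) (hy : 0 < y) :
    ∫ τ in x..y, 1 / gr c τ = zx c y - zx c x :=
  intervalIntegral.integral_eq_sub_of_hasDerivAt
    (fun _ h => hasDerivAt_zx c (uIcc_subset hx hy h))
    ((continuousOn_inv_gr c).mono (uIcc_subset hx hy)).intervalIntegrable

lemma integral_fr_gr {x y : ℝ} (hx : 0 < x) (hy : 0 < y) :
    ∫ τ in x..y, fr c τ / gr c τ = (Real.log y - zx c y) - (Real.log x - zx c x) := by
  refine intervalIntegral.integral_eq_sub_of_hasDerivAt (f := fun τ => Real.log τ - zx c τ)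
    (fun τ h => ?_) (((continuousOn_fr c).div (continuousOn_gr c)
      fun _ hx => (gr_pos c hx).ne').mono (uIcc_subset hx hy)).intervalIntegrable
  have hτ : 0 < τ := uIcc_subset hx hy h
  refine HasDerivAt.congr_deriv (f := fun τ => Real.log τ - zx c τ)
    ((Real.hasDerivAt_log hτ.ne').sub (hasDerivAt_zx c hτ)) ?_
  have := spd_pos c (zx c τ)
  have e : fr c τ = spd c (zx c τ) - 1 := by rw [fr, spd]; ring
  rw [e, gr]
  field_simp

lemma lintegral_inv_gr_top {s : Set ℝ} (hs : MeasurableSet s) (hs0 : s ⊆ Ioi 0)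
    (h : ¬ IntegrableOn (fun x : ℝ => x⁻¹) s) : ∫⁻ τ in s, ENNReal.ofReal (1 / gr c τ) = ⊤ := by
  by_contra hcon
  apply h
  have hm : AEStronglyMeasurable (fun x => 1 / gr c x) (volume.restrict s) :=
    ((continuousOn_inv_gr c).mono hs0).aestronglyMeasurable hs
  have hi : IntegrableOn (fun x => 1 / gr c x) s :=
    ⟨hm, (hasFiniteIntegral_iff_ofReal (ae_restrict_of_forall_mem hs fun x hx =>
      (one_div_pos.mpr (gr_pos c (hs0 hx))).le)).mpr (lt_top_iff_ne_top.mpr hcon)⟩
  refine Integrable.mono' (hi.const_mul (1 + c)) measurable_inv.aestronglyMeasurable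
    (ae_restrict_of_forall_mem hs fun x hx => ?_)
  have hx0 : 0 < x := hs0 hx
  have h1 := spd_pos c (zx c x)
  have h2 := spd_le c (zx c x)
  rw [Real.norm_of_nonneg (inv_pos.mpr hx0).le, gr, mul_one_div, le_div_iff₀ (mul_pos hx0 h1),
    inv_mul_cancel_left₀ hx0.ne']
  exact h2

/-- density of the mass measure in flow time -/
noncomputable def den (z : ℝ) : ℝ := xz c z * (xz c z * spd c z)

lemma den_pos (z : ℝ) : 0 < den c z := mul_pos (xz_pos c z) (mul_pos (xz_pos c z) (spd_pos c z))

lemma continuous_den : Continuous (den c) :=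
  (continuous_xz c).mul ((continuous_xz c).mul (continuous_spd c))

lemma measurable_denNN : Measurable fun z => (den c z).toNNReal :=
  (continuous_den c).measurable.real_toNNReal

lemma xz_preserving : MeasurePreserving (xz c)
    (volume.withDensity fun z => ((den c z).toNNReal : ℝ≥0∞)) massMeasure := by
  refine ⟨(continuous_xz c).measurable, ?_⟩
  ext s hs
  have hs' := (continuous_xz c).measurable hs
  rw [Measure.map_apply (continuous_xz c).measurable hs, withDensity_apply _ hs', massMeasure,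
    withDensity_apply _ hs, Measure.restrict_restrict hs, ← range_xz c,
    ← image_preimage_eq_inter_range,
    lintegral_image_eq_lintegral_abs_deriv_mul hs'
      (fun z _ => (hasDerivAt_xz c z).hasDerivWithinAt) (xz_strictMono c).injective.injOn]
  congr 1
  ext z
  have h := mul_pos (xz_pos c z) (spd_pos c z)
  rw [abs_of_pos h, ← ENNReal.ofReal_mul h.le, mul_comm]
  rfl

lemma xz_embedding : MeasurableEmbedding (xz c) :=
  (continuous_xz c).measurableEmbedding (xz_strictMono c).injective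

lemma ae_mass_iff (P : ℝ → Prop) : (∀ᵐ x ∂massMeasure, P x) ↔ ∀ᵐ z, P (xz c z) := by
  rw [← (xz_preserving c).map_eq, (xz_embedding c).ae_map_iff,
    ae_withDensity_iff (measurable_denNN c).coe_nnreal_ennreal]
  refine eventually_congr (Eventually.of_forall fun z => ?_)
  have : ((den c z).toNNReal : ℝ≥0∞) ≠ 0 := by simpa using den_pos c z
  simp [this]

lemma integrable_mass_iff (F : ℝ → ℂ) :
    Integrable F massMeasure ↔ Integrable fun z => den c z • F (xz c z) := by
  rw [← (xz_preserving c).map_eq, (xz_embedding c).integrable_map_iff,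
    integrable_withDensity_iff_integrable_smul (measurable_denNN c)]
  simp only [Function.comp_apply, NNReal.smul_def, Real.coe_toNNReal _ (den_pos c _).le]

lemma integral_mass (F : ℝ → ℂ) : ∫ x, F x ∂massMeasure = ∫ z, den c z • F (xz c z) := by
  rw [← (xz_preserving c).map_eq, (xz_embedding c).integral_map,
    integral_withDensity_eq_integral_smul (measurable_denNN c)]
  simp only [NNReal.smul_def, Real.coe_toNNReal _ (den_pos c _).le]

lemma lintegral_mass {F : ℝ → ℝ≥0∞} (hF : Measurable F) :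
    ∫⁻ x, F x ∂massMeasure = ∫⁻ z, ENNReal.ofReal (den c z) * F (xz c z) := by
  rw [← (xz_preserving c).lintegral_comp hF]
  exact lintegral_withDensity_eq_lintegral_mul _
    (measurable_denNN c).coe_nnreal_ennreal (hF.comp (continuous_xz c).measurable)

end Pool.Agent.MP_bbd370_an

end

section

set_option autoImplicit false
set_option linter.unusedSectionVars false

open Set MeasureTheory Filter Topology
open scoped BoundedContinuousFunction

namespace Pool.Agent.MP_bbd370_an

variable {E : Type} [NormedAddCommGroup E] [NormedSpace ℝ E] [NormedSpace ℂ E]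
  [IsScalarTower ℝ ℂ E] [CompleteSpace E]

lemma integral_mem_cone {𝒞 : Set E} (hc : Convex ℝ 𝒞) (hcl : IsClosed 𝒞)
    (hsm : ∀ (r : ℝ) x, 0 ≤ r → x ∈ 𝒞 → r • x ∈ 𝒞) (h0 : (0 : E) ∈ 𝒞) {F : ℝ → E}
    (hF : Continuous F) {t : ℝ} (ht : 0 ≤ t) (hm : ∀ σ ∈ Icc 0 t, F σ ∈ 𝒞) :
    ∫ σ in (0 : ℝ)..t, F σ ∈ 𝒞 := by
  rcases ht.eq_or_lt with rfl | ht'
  · simpa using h0
  have h := hc.set_average_mem (μ := volume) (t := Ioc 0 t) (f := F) hcl (by simpa using ht')
    (by simp) (ae_restrict_of_forall_mem measurableSet_Ioc fun σ hσ => hm σ (Ioc_subset_Icc_self hσ))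
    (hF.integrableOn_Icc.mono_set Ioc_subset_Icc_self)
  have h2 := hsm t _ ht h
  rw [setAverage_eq, smul_smul] at h2
  rw [intervalIntegral.integral_of_le ht]
  simpa [ht, ht'.ne'] using h2

lemma integral_mem_hull {K : Set E} {F : ℝ → E}
    (hF : Continuous F) {t : ℝ} (ht : 0 < t) (hm : ∀ σ ∈ Icc 0 t, F σ ∈ K) :
    ∫ σ in (0 : ℝ)..t, F σ ∈ (fun x => t • x) '' closure (convexHull ℝ K) := by
  have h := (convex_convexHull ℝ K).set_average_mem_closure (μ := volume) (t := Ioc 0 t) (f := F)
    (by simpa using ht) (by simp)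
    (ae_restrict_of_forall_mem measurableSet_Ioc fun σ hσ =>
      subset_convexHull ℝ K (hm σ (Ioc_subset_Icc_self hσ)))
    (hF.integrableOn_Icc.mono_set Ioc_subset_Icc_self)
  refine ⟨_, h, ?_⟩
  rw [setAverage_eq, intervalIntegral.integral_of_le ht.le]
  simp [smul_smul, ht.le, ht.ne']

section
variable {A : ℝ → E →L[ℂ] E} (hA : Continuous fun q : ℝ × E => A q.1 q.2) {C : ℝ} (hC : 0 < C)
  (hb : ∀ t x, ‖A t x‖ ≤ C * ‖x‖)

include hA in
lemma cont_integrand (C : ℝ) (w : ℝ →ᵇ E) :
    Continuous fun σ => Real.cosh (2 * C * σ) • A σ (w σ) :=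
  Continuous.smul (by fun_prop)
    (hA.comp (f := fun σ : ℝ => (σ, w σ)) (continuous_id.prodMk w.continuous))

include hC hb in
lemma norm_int_le (w : ℝ →ᵇ E) (t : ℝ) :
    ‖∫ σ in (0 : ℝ)..t, Real.cosh (2 * C * σ) • A σ (w σ)‖ ≤ Real.cosh (2 * C * t) * (‖w‖ / 2) := by
  have h1 : ∫ σ in (0 : ℝ)..t, Real.cosh (2 * C * σ) * (C * ‖w‖)
      = Real.sinh (2 * C * t) * (‖w‖ / 2) := by
    have : ∀ σ ∈ uIcc 0 t, HasDerivAt (fun σ => Real.sinh (2 * C * σ) * (‖w‖ / 2))
        (Real.cosh (2 * C * σ) * (C * ‖w‖)) σ := by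
      intro σ _
      have h := (((hasDerivAt_id σ).const_mul (2 * C)).sinh).mul_const (‖w‖ / 2)
      refine HasDerivAt.congr_deriv (f := fun σ => Real.sinh (2 * C * σ) * (‖w‖ / 2)) h ?_
      simp only [id]; ring
    rw [intervalIntegral.integral_eq_sub_of_hasDerivAt this
      (Continuous.intervalIntegrable (by fun_prop) _ _)]
    simp
  refine (intervalIntegral.norm_integral_le_abs_of_norm_le
    (g := fun σ => Real.cosh (2 * C * σ) * (C * ‖w‖)) (Eventually.of_forall fun σ => ?_)
    (Continuous.intervalIntegrable (by fun_prop) _ _)).trans ?_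
  · rw [norm_smul, Real.norm_of_nonneg (Real.cosh_pos _).le]
    refine mul_le_mul_of_nonneg_left ((hb _ _).trans ?_) (Real.cosh_pos _).le
    exact mul_le_mul_of_nonneg_left (w.norm_coe_le_norm σ) hC.le
  · rw [h1, abs_mul, abs_of_nonneg (by positivity : 0 ≤ ‖w‖ / 2), Real.abs_sinh, ← Real.cosh_abs]
    exact mul_le_mul_of_nonneg_right (Real.sinh_lt_cosh _).le (by positivity)

include hC hb in
lemma norm_pic_le (f : E) (w : ℝ →ᵇ E) (t : ℝ) :
    ‖(Real.cosh (2 * C * t))⁻¹ • (f + ∫ σ in (0 : ℝ)..t, Real.cosh (2 * C * σ) • A σ (w σ))‖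
      ≤ ‖f‖ + ‖w‖ / 2 := by
  have h1 := norm_int_le hC hb w t
  have h2 := Real.one_le_cosh (2 * C * t)
  rw [norm_smul, norm_inv, Real.norm_of_nonneg (Real.cosh_pos _).le,
    inv_mul_le_iff₀ (Real.cosh_pos _)]
  refine (norm_add_le _ _).trans ?_
  nlinarith [norm_nonneg f]

/-- Picard operator in a weighted space -/
noncomputable def pic (f : E) (w : ℝ →ᵇ E) : ℝ →ᵇ E :=
  BoundedContinuousFunction.ofNormedAddCommGroup
    (fun t => (Real.cosh (2 * C * t))⁻¹ •
      (f + ∫ σ in (0 : ℝ)..t, Real.cosh (2 * C * σ) • A σ (w σ)))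
    (Continuous.smul (Continuous.inv₀ (by fun_prop) fun _ => (Real.cosh_pos _).ne')
      (continuous_const.add (intervalIntegral.continuous_primitive
        (fun _ _ => (cont_integrand hA C w).intervalIntegrable _ _) 0)))
    (‖f‖ + ‖w‖ / 2) (norm_pic_le hC hb f w)

lemma pic_apply (f : E) (w : ℝ →ᵇ E) (t : ℝ) : pic hA hC hb f w t = (Real.cosh (2 * C * t))⁻¹ •
      (f + ∫ σ in (0 : ℝ)..t, Real.cosh (2 * C * σ) • A σ (w σ)) := rfl

lemma pic_contracting (f : E) : ContractingWith (1 / 2) (pic hA hC hb f) := by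
  refine ⟨by norm_num, LipschitzWith.of_dist_le_mul fun w v => ?_⟩
  rw [BoundedContinuousFunction.dist_le (by positivity)]
  intro t
  have h := norm_pic_le hC hb 0 (w - v) t
  rw [dist_eq_norm, dist_eq_norm, pic_apply, pic_apply, ← smul_sub, add_sub_add_left_eq_sub,
    ← intervalIntegral.integral_sub ((cont_integrand hA C w).intervalIntegrable _ _)
      ((cont_integrand hA C v).intervalIntegrable _ _)]
  simp only [zero_add, BoundedContinuousFunction.coe_sub, Pi.sub_apply, map_sub, smul_sub,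
    norm_zero] at h
  refine h.trans (le_of_eq ?_)
  push_cast; ring

/-- the fixed point -/
noncomputable def fixp (f : E) : ℝ →ᵇ E :=
  ContractingWith.fixedPoint (pic hA hC hb f) (pic_contracting hA hC hb f)

lemma fixp_eq (f : E) : pic hA hC hb f (fixp hA hC hb f) = fixp hA hC hb f :=
  (pic_contracting hA hC hb f).fixedPoint_isFixedPt

/-- solution of the linear equation -/
noncomputable def sol (f : E) (t : ℝ) : E :=
  Real.cosh (2 * C * t) • fixp hA hC hb f t

lemma continuous_sol (f : E) : Continuous (sol hA hC hb f) :=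
  Continuous.smul (f := fun t => Real.cosh (2 * C * t)) (by fun_prop)
    (fixp hA hC hb f).continuous

lemma sol_eq (f : E) (t : ℝ) :
    sol hA hC hb f t = f + ∫ σ in (0 : ℝ)..t, A σ (sol hA hC hb f σ) := by
  conv_lhs => rw [sol, ← fixp_eq, pic_apply, smul_smul, mul_inv_cancel₀ (Real.cosh_pos _).ne', one_smul]
  simp only [sol, ContinuousLinearMap.map_smul_of_tower]

lemma sol_zero (f : E) : sol hA hC hb f 0 = f := by rw [sol_eq]; simp

lemma cont_A_sol (f : E) : Continuous fun σ => A σ (sol hA hC hb f σ) :=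
  hA.comp (f := fun σ : ℝ => (σ, sol hA hC hb f σ))
    (continuous_id.prodMk (continuous_sol hA hC hb f))

lemma hasDerivAt_sol (f : E) (t : ℝ) :
    HasDerivAt (sol hA hC hb f) (A t (sol hA hC hb f t)) t := by
  have h := ((cont_A_sol hA hC hb f).integral_hasStrictDerivAt 0 t).hasDerivAt.const_add f
  exact h.congr_of_eventuallyEq (Eventually.of_forall fun u => sol_eq hA hC hb f u)

lemma norm_sol_le (f : E) (t : ℝ) : ‖sol hA hC hb f t‖ ≤ 2 * Real.cosh (2 * C * t) * ‖f‖ := by
  have h := fixp_eq hA hC hb f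
  set w := fixp hA hC hb f
  have h1 : ‖w‖ ≤ ‖f‖ + ‖w‖ / 2 := by
    conv_lhs => rw [← h]
    exact (BoundedContinuousFunction.norm_le (by positivity)).mpr (norm_pic_le hC hb f w)
  have h2 := w.norm_coe_le_norm t
  rw [sol, norm_smul, Real.norm_of_nonneg (Real.cosh_pos _).le]
  have := Real.cosh_pos (2 * C * t)
  nlinarith

include hC hb in
omit [CompleteSpace E] in
lemma ode_unique {y z : ℝ → E} (hy : ∀ t, HasDerivAt y (A t (y t)) t)
    (hz : ∀ t, HasDerivAt z (A t (z t)) t) (h0 : y 0 = z 0) : y = z := by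
  refine ODE_solution_unique_univ (v := fun t x => A t x) (s := fun _ => univ) (K := ⟨C, hC.le⟩)
    (t₀ := 0) (fun t => ?_) (fun t => ⟨hy t, trivial⟩) (fun t => ⟨hz t, trivial⟩) h0
  refine (LipschitzWith.of_dist_le_mul fun x y => ?_).lipschitzOnWith
  rw [dist_eq_norm, dist_eq_norm, ← map_sub]
  exact hb _ _

lemma sol_unique {f : E} {y : ℝ → E} (hy : ∀ t, HasDerivAt y (A t (y t)) t) (h0 : y 0 = f) :
    y = sol hA hC hb f :=
  ode_unique hC hb hy (hasDerivAt_sol hA hC hb f) (h0.trans (sol_zero hA hC hb f).symm)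

/-- the propagator -/
noncomputable def prop (t : ℝ) : E →L[ℂ] E :=
  LinearMap.mkContinuous
    { toFun := fun f => sol hA hC hb f t
      map_add' := fun f g => by
        have := sol_unique hA hC hb (f := f + g) (y := fun t => sol hA hC hb f t + sol hA hC hb g t)
          (fun t => by
            rw [map_add]; exact (hasDerivAt_sol hA hC hb f t).add (hasDerivAt_sol hA hC hb g t))
          (by simp only [sol_zero])
        rw [← this]
      map_smul' := fun c f => by
        have := sol_unique hA hC hb (f := c • f) (y := fun t => c • sol hA hC hb f t)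
          (fun t => by rw [map_smul]; exact (hasDerivAt_sol hA hC hb f t).const_smul c)
          (by simp only [sol_zero])
        rw [← this]; rfl }
    (2 * Real.cosh (2 * C * t)) (fun f => norm_sol_le hA hC hb f t)

lemma prop_apply (t : ℝ) (f : E) : prop hA hC hb t f = sol hA hC hb f t := rfl

lemma sol_mem {𝒞 : Set E} (hc : Convex ℝ 𝒞) (hcl : IsClosed 𝒞)
    (hsm : ∀ (r : ℝ) x, 0 ≤ r → x ∈ 𝒞 → r • x ∈ 𝒞) (hAc : ∀ t x, x ∈ 𝒞 → A t x ∈ 𝒞)
    {f : E} (hf : f ∈ 𝒞) {t : ℝ} (ht : 0 ≤ t) : sol hA hC hb f t ∈ 𝒞 := by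
  have h0 : (0 : E) ∈ 𝒞 := by simpa using hsm 0 f le_rfl hf
  have hadd : ∀ x y, x ∈ 𝒞 → y ∈ 𝒞 → x + y ∈ 𝒞 := by
    intro x y hx hy
    have := hsm 2 _ (by norm_num) (hc hx hy (a := 1 / 2) (b := 1 / 2) (by norm_num) (by norm_num)
      (by norm_num))
    simpa [smul_add, smul_smul] using this
  have hit : ∀ n : ℕ, ∀ t, 0 ≤ t → ((pic hA hC hb f)^[n] 0) t ∈ 𝒞 := by
    intro n
    induction n with
    | zero => intro t _; simpa using h0
    | succ n ih =>
      intro t ht
      rw [Function.iterate_succ_apply', pic_apply]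
      refine hsm _ _ (inv_pos.mpr (Real.cosh_pos _)).le (hadd _ _ hf ?_)
      exact integral_mem_cone hc hcl hsm h0 (cont_integrand hA C _) ht fun σ hσ =>
        hsm _ _ (Real.cosh_pos _).le (hAc _ _ (ih σ hσ.1))
  refine hsm _ _ (Real.cosh_pos _).le ?_
  have hl := (pic_contracting hA hC hb f).tendsto_iterate_fixedPoint 0
  exact hcl.mem_of_tendsto
    (((continuous_eval_const t).tendsto _).comp hl)
    (Eventually.of_forall fun n => hit n t ht)

end

end Pool.Agent.MP_bbd370_an

end

section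

set_option autoImplicit false
set_option linter.unusedSectionVars false

open Set MeasureTheory Filter Topology

namespace Pool.Agent.MP_bbd370_an

variable {E : Type} [NormedAddCommGroup E] [NormedSpace ℝ E] [NormedSpace ℂ E]
  [IsScalarTower ℝ ℂ E] [CompleteSpace E]

/-- a strongly continuous group of contractions -/
structure IsGrp (S : ℝ → E →L[ℂ] E) : Prop where
  zero : ∀ f, S 0 f = f
  add : ∀ s t f, S (s + t) f = S s (S t f)
  cont : ∀ f, Continuous fun t => S t f
  bound : ∀ t f, ‖S t f‖ ≤ ‖f‖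

lemma IsGrp.joint {S : ℝ → E →L[ℂ] E} (hS : IsGrp S) : Continuous fun q : ℝ × E => S q.1 q.2 := by
  refine continuous_prod_of_continuous_lipschitzWith' _ 1 (fun t => ?_) hS.cont
  refine LipschitzWith.of_dist_le_mul fun x y => ?_
  rw [dist_eq_norm, dist_eq_norm, ← map_sub]
  simpa only [NNReal.coe_one, one_mul] using hS.bound t (x - y)

lemma IsGrp.comp {S : ℝ → E →L[ℂ] E} (hS : IsGrp S) {X : Type} [TopologicalSpace X] {a : X → ℝ}
    {u : X → E} (ha : Continuous a) (hu : Continuous u) : Continuous fun x => S (a x) (u x) :=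
  hS.joint.comp (f := fun x => (a x, u x)) (ha.prodMk hu)

/-- the interaction picture vector field -/
noncomputable def field (S : ℝ → E →L[ℂ] E) (l : E →L[ℂ] ℂ) (ψ : E) (t : ℝ) : E →L[ℂ] E :=
  (l.comp (S t)).smulRight (S (-t) ψ)

lemma field_apply (S : ℝ → E →L[ℂ] E) (l : E →L[ℂ] ℂ) (ψ : E) (t : ℝ) (x : E) :
    field S l ψ t x = l (S t x) • S (-t) ψ := rfl

section
variable {S : ℝ → E →L[ℂ] E} (hS : IsGrp S) (l : E →L[ℂ] ℂ) (ψ : E)
include hS

lemma field_cont : Continuous fun q : ℝ × E => field S l ψ q.1 q.2 :=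
  (l.continuous.comp hS.joint).smul (hS.comp continuous_fst.neg continuous_const)

omit hS in
lemma const_pos : 0 < ‖l‖ * ‖ψ‖ + 1 := by positivity

lemma field_bound (t : ℝ) (x : E) : ‖field S l ψ t x‖ ≤ (‖l‖ * ‖ψ‖ + 1) * ‖x‖ := by
  rw [field_apply, norm_smul]
  have h1 := l.le_opNorm (S t x)
  have h2 := hS.bound t x
  have h3 := hS.bound (-t) ψ
  have h4 : ‖l (S t x)‖ ≤ ‖l‖ * ‖x‖ := h1.trans (mul_le_mul_of_nonneg_left h2 (norm_nonneg _))
  calc _ ≤ ‖l‖ * ‖x‖ * ‖ψ‖ := mul_le_mul h4 h3 (norm_nonneg _) (by positivity)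
    _ ≤ _ := by nlinarith [norm_nonneg x]

/-- interaction picture propagator -/
noncomputable def inter (t : ℝ) : E →L[ℂ] E :=
  prop (field_cont hS l ψ) (const_pos l ψ) (field_bound hS l ψ) t

lemma inter_zero (f : E) : inter hS l ψ 0 f = f := sol_zero _ _ _ f

lemma inter_deriv (f : E) (t : ℝ) : HasDerivAt (fun t => inter hS l ψ t f)
    (l (S t (inter hS l ψ t f)) • S (-t) ψ) t := hasDerivAt_sol _ _ _ f t

lemma inter_unique {f : E} {y : ℝ → E} (hy : ∀ t, HasDerivAt y (l (S t (y t)) • S (-t) ψ) t)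
    (h0 : y 0 = f) (t : ℝ) : inter hS l ψ t f = y t :=
  (congrFun (sol_unique _ _ _ hy h0) t).symm

lemma inter_cont (f : E) : Continuous fun t => inter hS l ψ t f := continuous_sol _ _ _ f

lemma inter_add (s t : ℝ) (f : E) :
    inter hS l ψ t (S s (inter hS l ψ s f)) = S s (inter hS l ψ (t + s) f) := by
  refine inter_unique hS l ψ (y := fun t => S s (inter hS l ψ (t + s) f)) (fun t => ?_) (by simp) t
  have h1 := (inter_deriv hS l ψ f (t + s)).comp_add_const t s
  have h2 := ((S s).restrictScalars ℝ).hasFDerivAt.comp_hasDerivAt t h1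
  refine HasDerivAt.congr_deriv (f := fun t => S s (inter hS l ψ (t + s) f)) h2 ?_
  have e : s + -(t + s) = -t := by ring
  simp only [ContinuousLinearMap.coe_restrictScalars', map_smul, ← hS.add, e]

lemma inter_compact {t : ℝ} (ht : 0 < t) : 
    IsCompactOperator (inter hS l ψ t - 1 : E →L[ℂ] E) := by
  set R := ‖l‖ * (2 * Real.cosh (2 * (‖l‖ * ‖ψ‖ + 1) * t)) with hR
  let K : Set E := (fun q : ℂ × ℝ => q.1 • S (-q.2) ψ) '' (Metric.closedBall 0 R ×ˢ Icc 0 t)
  have hK : IsCompact K := ((isCompact_closedBall _ _).prod isCompact_Icc).image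
    (continuous_fst.smul (hS.comp continuous_snd.neg continuous_const))
  have hK2 : IsCompact (closure (convexHull ℝ K)) :=
    hK.totallyBounded.convexHull.closure.isCompact_of_isClosed isClosed_closure
  refine (isCompactOperator_iff_image_ball_subset_compact
    (inter hS l ψ t - 1 : E →L[ℂ] E).toLinearMap one_pos).mpr
    ⟨_, hK2.image (continuous_const_smul t), ?_⟩
  rintro _ ⟨f, hf, rfl⟩
  have e : (inter hS l ψ t - 1 : E →L[ℂ] E).toLinearMap f
      = ∫ σ in (0 : ℝ)..t, field S l ψ σ (inter hS l ψ σ f) := by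
    show inter hS l ψ t f - f = _
    rw [sub_eq_iff_eq_add']
    exact sol_eq _ _ _ f t
  rw [e]
  refine integral_mem_hull (cont_A_sol _ _ _ f) ht fun σ hσ =>
    ⟨(l (S σ (inter hS l ψ σ f)), σ), ⟨?_, hσ⟩, rfl⟩
  have hf' : ‖f‖ ≤ 1 := (mem_ball_zero_iff.mp hf).le
  rw [mem_closedBall_zero_iff, hR]
  refine (l.le_opNorm _).trans (mul_le_mul_of_nonneg_left ((hS.bound _ _).trans ?_) (norm_nonneg _))
  refine (norm_sol_le _ _ _ f σ).trans ?_
  have h1 : Real.cosh (2 * (‖l‖ * ‖ψ‖ + 1) * σ) ≤ Real.cosh (2 * (‖l‖ * ‖ψ‖ + 1) * t) := by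
    have := const_pos l ψ
    rw [Real.cosh_le_cosh, abs_of_nonneg (by nlinarith [hσ.1]), abs_of_nonneg (by nlinarith)]
    nlinarith [hσ.2]
  have h2 := Real.cosh_pos (2 * (‖l‖ * ‖ψ‖ + 1) * σ)
  nlinarith

lemma resolvent_integrable (c : ℝ) : IntegrableOn (fun s => Real.exp (-s) • S s ψ) (Ioi c) := by
  refine Integrable.mono' ((integrableOn_exp_neg_Ioi c).mul_const ‖ψ‖)
    (Continuous.aestronglyMeasurable (Continuous.smul (f := fun s => Real.exp (-s)) (by fun_prop)
      (hS.cont ψ))) (Eventually.of_forall fun s => ?_)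
  rw [norm_smul, Real.norm_of_nonneg (Real.exp_pos _).le]
  exact mul_le_mul_of_nonneg_left (hS.bound _ _) (Real.exp_pos _).le

lemma shift_resolvent (t : ℝ) : S t (∫ s in Ioi (-t), Real.exp (-s) • S s ψ)
    = Real.exp t • ∫ s in Ioi 0, Real.exp (-s) • S s ψ := by
  have h1 := ((S t).restrictScalars ℝ).integral_comp_comm (resolvent_integrable hS ψ (-t))
  simp only [ContinuousLinearMap.coe_restrictScalars'] at h1
  rw [← h1, ← integral_smul]
  have h2 := (measurePreserving_add_right (volume : Measure ℝ) t).setIntegral_preimage_emb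
    (measurableEmbedding_addRight t) (fun s => Real.exp t • Real.exp (-s) • S s ψ) (Ioi 0)
  rw [← h2, preimage_add_const_Ioi, zero_sub]
  congr 1
  ext s
  rw [ContinuousLinearMap.map_smul_of_tower, ← hS.add, smul_smul, ← Real.exp_add, add_comm t s]
  congr 2
  ring

lemma inter_eigen (h1 : l (∫ s in Ioi 0, Real.exp (-s) • S s ψ) = 1) (t : ℝ) :
    S t (inter hS l ψ t (∫ s in Ioi 0, Real.exp (-s) • S s ψ))
      = Real.exp t • ∫ s in Ioi 0, Real.exp (-s) • S s ψ := by
  rw [← shift_resolvent hS ψ t]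
  congr 1
  refine inter_unique hS l ψ (y := fun t => ∫ s in Ioi (-t), Real.exp (-s) • S s ψ)
    (fun t => ?_) (by simp) t
  have hc : Continuous fun s => Real.exp (-s) • S s ψ :=
    Continuous.smul (f := fun s => Real.exp (-s)) (by fun_prop) (hS.cont ψ)
  have h2 := ((hc.integral_hasStrictDerivAt 0 (-t)).hasDerivAt.scomp t
    (hasDerivAt_neg t)).const_sub (∫ s in Ioi 0, Real.exp (-s) • S s ψ)
  have h3 : (fun t => ∫ s in Ioi (-t), Real.exp (-s) • S s ψ) = fun t =>
      (∫ s in Ioi 0, Real.exp (-s) • S s ψ) - ∫ s in (0 : ℝ)..(-t), Real.exp (-s) • S s ψ := by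
    ext t
    rw [← intervalIntegral.integral_Ioi_sub_Ioi' (resolvent_integrable hS ψ 0)
      (resolvent_integrable hS ψ (-t))]
    abel
  rw [shift_resolvent hS ψ t, ContinuousLinearMap.map_smul_of_tower, h1, h3]
  refine HasDerivAt.congr_deriv h2 ?_
  rw [smul_assoc, one_smul, neg_smul, one_smul, neg_neg, neg_neg]

end

theorem perturb {S : ℝ → E →L[ℂ] E} (hS : IsGrp S) (l : E →L[ℂ] ℂ) (ψ : E)
    (h1 : l (∫ s in Ioi 0, Real.exp (-s) • S s ψ) = 1)
    {𝒞 : Set E} (hc : Convex ℝ 𝒞) (hcl : IsClosed 𝒞)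
    (hsm : ∀ (r : ℝ) x, 0 ≤ r → x ∈ 𝒞 → r • x ∈ 𝒞) (hSc : ∀ t x, x ∈ 𝒞 → S t x ∈ 𝒞)
    (hψ : ψ ∈ 𝒞) (hl : ∀ x ∈ 𝒞, ∃ r : ℝ, 0 ≤ r ∧ l x = r) :
    ∃ V : ℝ → E →L[ℂ] E, V 0 = 1 ∧ (∀ s t, V (s + t) = V s * V t) ∧
      (∀ f, Continuous fun t => V t f) ∧ (∀ t, 0 ≤ t → ∀ f ∈ 𝒞, V t f ∈ 𝒞) ∧
      (∀ f, HasDerivAt (fun t => V t f - Real.exp t • S t f) (l f • ψ) 0) ∧
      (∀ t, 0 < t → IsCompactOperator (V t - (Real.exp t : ℂ) • S t : E →L[ℂ] E)) ∧
      ∃ e : E, e ≠ 0 ∧ ∀ t, V t e = Real.exp (2 * t) • e := by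
  have hsmul : ∀ (r : ℝ) (x : E), (r : ℂ) • x = r • x := fun r x => by
    rw [← smul_one_smul ℂ r x]; simp
  have happ : ∀ t f, ((Real.exp t : ℂ) • (S t).comp (inter hS l ψ t)) f
      = Real.exp t • S t (inter hS l ψ t f) := fun t f => hsmul _ _
  refine ⟨fun t => (Real.exp t : ℂ) • (S t).comp (inter hS l ψ t), ?_, ?_, ?_, ?_, ?_, ?_, ?_⟩
  · ext f
    rw [happ, inter_zero, hS.zero]; simp
  · intro s t
    ext f
    rw [mul_apply_eq_comp, happ, happ, happ, ContinuousLinearMap.map_smul_of_tower,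
      ContinuousLinearMap.map_smul_of_tower, inter_add, ← hS.add, smul_smul, Real.exp_add]
  · intro f
    simp only [happ]
    exact Real.continuous_exp.smul (hS.comp continuous_id (inter_cont hS l ψ f))
  · intro t ht f hf
    rw [happ]
    refine hsm _ _ (Real.exp_pos _).le (hSc _ _ (sol_mem _ _ _ hc hcl hsm (fun t x hx => ?_) hf ht))
    obtain ⟨r, hr, e⟩ := hl _ (hSc t x hx)
    rw [field_apply, e, hsmul]
    exact hsm _ _ hr (hSc _ _ hψ)
  · intro f
    simp only [happ]
    have h2 := inter_deriv hS l ψ f 0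
    rw [inter_zero, neg_zero, hS.zero, hS.zero, hasDerivAt_iff_tendsto_slope_zero] at h2
    rw [hasDerivAt_iff_tendsto_slope_zero]
    have h3 : Continuous fun q : ℝ × E => Real.exp q.1 • S q.1 q.2 :=
      (Real.continuous_exp.comp continuous_fst).smul hS.joint
    have h4 := (h3.tendsto (0, l f • ψ)).comp
      ((tendsto_id.mono_left (nhdsWithin_le_nhds (s := {0}ᶜ))).prodMk_nhds h2)
    simp only [Real.exp_zero, one_smul, hS.zero] at h4
    refine h4.congr fun t => ?_
    simp only [Function.comp_apply, id, zero_add, inter_zero, hS.zero, sub_self, sub_zero,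
      ContinuousLinearMap.map_smul_of_tower, map_sub, smul_sub, Real.exp_zero]
    rw [smul_comm, smul_comm (Real.exp t)]
  · intro t ht
    have h2 := ((inter_compact hS l ψ ht).clm_comp (S t)).smul (Real.exp t : ℂ)
    have e : (((Real.exp t : ℂ) • (S t).comp (inter hS l ψ t) - (Real.exp t : ℂ) • S t :
        E →L[ℂ] E) : E → E) = (Real.exp t : ℂ) • (S t ∘ (inter hS l ψ t - 1 : E →L[ℂ] E)) := by
      ext f
      simp [smul_sub]
    rw [e]
    exact h2
  · refine ⟨∫ s in Ioi 0, Real.exp (-s) • S s ψ, fun h => ?_, fun t => ?_⟩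
    · rw [h, map_zero] at h1
      exact zero_ne_one h1
    · rw [happ, inter_eigen hS l ψ h1, smul_smul, ← Real.exp_add, two_mul]

end Pool.Agent.MP_bbd370_an

end

section

set_option autoImplicit false

open Set MeasureTheory Filter Topology
open scoped ENNReal NNReal

namespace Pool.Agent.MP_bbd370_an

/-- integrable functions of the flow time -/
abbrev L1 : Type := Lp ℂ 1 (volume : Measure ℝ)

variable (c : ℝ≥0)

lemma integrable_pull (f : X1) : Integrable fun z => den c z • f (xz c z) :=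
  (integrable_mass_iff c f).mp (L1.integrable_coeFn f)

/-- change of variables -/
noncomputable def pull (f : X1) : L1 := (integrable_pull c f).toL1 _

lemma pull_ae (f : X1) : ∀ᵐ z, pull c f z = den c z • f (xz c z) :=
  Integrable.coeFn_toL1 (integrable_pull c f)

lemma norm_pull (f : X1) : ‖pull c f‖ = ‖f‖ := by
  rw [L1.norm_eq_integral_norm, L1.norm_eq_integral_norm]
  have h := integral_mass c fun x => (‖f x‖ : ℂ)
  simp only [Complex.real_smul, ← Complex.ofReal_mul, integral_complex_ofReal] at h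
  rw [Complex.ofReal_injective h]
  refine integral_congr_ae ?_
  filter_upwards [pull_ae c f] with z hz
  rw [hz, norm_smul, Real.norm_of_nonneg (den_pos c z).le]

/-- change of variables as a linear isometry -/
noncomputable def pullLI : X1 →ₗᵢ[ℂ] L1 where
  toFun := pull c
  map_add' f g := by
    apply Lp.ext
    filter_upwards [pull_ae c (f + g), pull_ae c f, pull_ae c g,
      Lp.coeFn_add (pull c f) (pull c g), (ae_mass_iff c _).mp (Lp.coeFn_add f g)]
      with z h1 h2 h3 h4 h5
    rw [h1, h4, Pi.add_apply, h2, h3, h5, Pi.add_apply, smul_add]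
  map_smul' a f := by
    apply Lp.ext
    filter_upwards [pull_ae c (a • f), pull_ae c f,
      Lp.coeFn_smul a (pull c f), (ae_mass_iff c _).mp (Lp.coeFn_smul a f)]
      with z h1 h2 h4 h5
    rw [h1, RingHom.id_apply, h4, Pi.smul_apply, h2, h5, Pi.smul_apply, smul_comm]
  norm_map' := norm_pull c

lemma pull_surjective : Function.Surjective (pullLI c) := by
  intro h
  have hi : Integrable (fun x => (den c (zx c x))⁻¹ • h (zx c x)) massMeasure := by
    rw [integrable_mass_iff c]
    simp only [zx_xz, smul_smul, mul_inv_cancel₀ (den_pos c _).ne', one_smul]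
    exact L1.integrable_coeFn h
  refine ⟨hi.toL1 _, ?_⟩
  apply Lp.ext
  filter_upwards [pull_ae c (hi.toL1 _), (ae_mass_iff c _).mp (Integrable.coeFn_toL1 hi)]
    with z h1 h2
  show pull c _ z = _
  rw [h1, h2, zx_xz, smul_smul, mul_inv_cancel₀ (den_pos c _).ne', one_smul]

/-- change of variables as an isometric isomorphism -/
noncomputable def J : X1 ≃ₗᵢ[ℂ] L1 := LinearIsometryEquiv.ofSurjective _ (pull_surjective c)

lemma J_ae (f : X1) : ∀ᵐ z, J c f z = den c z • f (xz c z) := pull_ae c f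

lemma Jsymm_ae (h : L1) : ∀ᵐ z, den c z • (J c).symm h (xz c z) = h z := by
  have := J_ae c ((J c).symm h)
  rw [LinearIsometryEquiv.apply_symm_apply] at this
  exact this.mono fun z hz => hz.symm

/-- translation -/
noncomputable def trl (t : ℝ) : L1 →ₗᵢ[ℂ] L1 :=
  Lp.compMeasurePreservingₗᵢ ℂ (fun z => z - t) (measurePreserving_sub_right volume t)

lemma trl_ae (t : ℝ) (h : L1) : ∀ᵐ z, trl t h z = h (z - t) :=
  Lp.coeFn_compMeasurePreserving h (measurePreserving_sub_right volume t)

lemma ae_sub {P : ℝ → Prop} (h : ∀ᵐ z, P z) (t : ℝ) : ∀ᵐ z, P (z - t) :=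
  (measurePreserving_sub_right volume t).quasiMeasurePreserving.ae h

lemma trl_zero (h : L1) : trl 0 h = h := by
  apply Lp.ext
  filter_upwards [trl_ae 0 h] with z hz
  rw [hz, sub_zero]

lemma trl_add (s t : ℝ) (h : L1) : trl (s + t) h = trl s (trl t h) := by
  apply Lp.ext
  filter_upwards [trl_ae (s + t) h, trl_ae s (trl t h), ae_sub (trl_ae t h) s] with z h1 h2 h3
  rw [h1, h2, h3, sub_sub]

lemma trl_cont (h : L1) : Continuous fun t => trl t h :=
  Continuous.compMeasurePreservingLp (f := fun _ : ℝ => h)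
    (g := fun t => ContinuousMap.curry ⟨fun q : ℝ × ℝ => q.2 - q.1, by fun_prop⟩ t)
    continuous_const (ContinuousMap.continuous _)
    (fun t => measurePreserving_sub_right volume t) (by simp)

/-- the isometric part of the transport group -/
noncomputable def Sg (t : ℝ) : X1 →L[ℂ] X1 :=
  (((J c).symm.toLinearIsometry.comp (trl t)).comp (J c).toLinearIsometry).toContinuousLinearMap

lemma Sg_apply (t : ℝ) (f : X1) : Sg c t f = (J c).symm (trl t (J c f)) := rfl

lemma isGrp_Sg : IsGrp (Sg c) where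
  zero f := by rw [Sg_apply, trl_zero, LinearIsometryEquiv.symm_apply_apply]
  add s t f := by
    rw [Sg_apply, Sg_apply, Sg_apply, LinearIsometryEquiv.apply_symm_apply, trl_add]
  cont f := (J c).symm.continuous.comp (trl_cont _)
  bound t f := by rw [Sg_apply, LinearIsometryEquiv.norm_map, LinearIsometry.norm_map,
    LinearIsometryEquiv.norm_map]

lemma Sg_ae (t : ℝ) (f : X1) :
    ∀ᵐ z, den c z • Sg c t f (xz c z) = den c (z - t) • f (xz c (z - t)) := by
  filter_upwards [Jsymm_ae c (trl t (J c f)), trl_ae t (J c f), ae_sub (J_ae c f) t]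
    with z h1 h2 h3
  rw [Sg_apply, h1, h2, h3]

lemma integrable_ramp (h : L1) : Integrable fun z => ramp z • h z := by
  refine Integrable.mono' (L1.integrable_coeFn h).norm
    (continuous_ramp.aestronglyMeasurable.smul (Lp.aestronglyMeasurable h))
    (Eventually.of_forall fun z => ?_)
  rw [norm_smul, Real.norm_of_nonneg (ramp_nonneg z)]
  exact mul_le_of_le_one_left (norm_nonneg _) (ramp_le_one z)

/-- integration against the ramp -/
noncomputable def rampL : L1 →L[ℂ] ℂ :=
  LinearMap.mkContinuous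
    { toFun := fun h => ∫ z, ramp z • h z
      map_add' := fun f g => by
        rw [← integral_add (integrable_ramp f) (integrable_ramp g)]
        refine integral_congr_ae ?_
        filter_upwards [Lp.coeFn_add f g] with z hz
        rw [hz, Pi.add_apply, smul_add]
      map_smul' := fun a f => by
        rw [RingHom.id_apply, ← integral_smul]
        refine integral_congr_ae ?_
        filter_upwards [Lp.coeFn_smul a f] with z hz
        rw [hz, Pi.smul_apply, smul_comm] }
    1 (fun h => by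
      rw [one_mul, L1.norm_eq_integral_norm]
      refine norm_integral_le_of_norm_le (L1.integrable_coeFn h).norm
        (Eventually.of_forall fun z => ?_)
      rw [norm_smul, Real.norm_of_nonneg (ramp_nonneg z)]
      exact mul_le_of_le_one_left (norm_nonneg _) (ramp_le_one z))

lemma rampL_apply (h : L1) : rampL h = ∫ z, ramp z • h z := rfl

/-- distribution of fragments in flow time -/
noncomputable def bump (z : ℝ) : ℝ := (Ioo (-1 : ℝ) 0).indicator 1 z

lemma bump_nonneg (z : ℝ) : 0 ≤ bump z := indicator_nonneg (fun _ _ => zero_le_one) z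

lemma bump_of_nonneg {z : ℝ} (h : 0 ≤ z) : bump z = 0 :=
  indicator_of_notMem (fun hz => absurd hz.2 (not_lt.mpr h)) _

lemma measurable_bump : Measurable bump := measurable_one.indicator measurableSet_Ioo

/-- the bump as an integrable function -/
noncomputable def bumpL : L1 := indicatorConstLp 1 (measurableSet_Ioo (a := (-1 : ℝ)) (b := 0))
  (by simp) (1 : ℂ)

lemma bumpL_ae : ∀ᵐ z, bumpL z = (bump z : ℂ) := by
  filter_upwards [indicatorConstLp_coeFn (p := 1) (μ := (volume : Measure ℝ))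
    (hs := measurableSet_Ioo (a := (-1 : ℝ)) (b := 0)) (hμs := by simp) (c := (1 : ℂ))] with z hz
  rw [bumpL, hz, bump]
  by_cases h : z ∈ Ioo (-1 : ℝ) 0 <;> simp [h]

/-- renewal kernel -/
noncomputable def ker (s : ℝ) : ℝ := ∫ z, ramp z * bump (z - s)

lemma rampL_trl (s : ℝ) : rampL (trl s bumpL) = ker s := by
  rw [rampL_apply, ker, ← integral_complex_ofReal]
  refine integral_congr_ae ?_
  filter_upwards [trl_ae s bumpL, ae_sub bumpL_ae s] with z h1 h2
  rw [h1, h2]; simp

lemma ker_nonneg (s : ℝ) : 0 ≤ ker s :=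
  integral_nonneg fun z => mul_nonneg (ramp_nonneg z) (bump_nonneg _)

lemma ker_of_two_le {s : ℝ} (hs : 2 ≤ s) : ker s = 1 := by
  have : ∀ z, ramp z * bump (z - s) = bump (z - s) := by
    intro z
    by_cases h : z - s ∈ Ioo (-1 : ℝ) 0
    · rw [ramp_of_one_le (by linarith [h.1]), one_mul]
    · rw [bump, indicator_of_notMem h, mul_zero]
  simp only [ker, this]
  rw [integral_sub_right_eq_self bump s]
  unfold bump
  rw [integral_indicator_one measurableSet_Ioo]
  simp

/-- Laplace transform of the renewal kernel -/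
noncomputable def lap : ℝ := ∫ s in Ioi (0 : ℝ), Real.exp (-s) * ker s

lemma isGrp_trl : IsGrp fun t => (trl t).toContinuousLinearMap where
  zero := trl_zero
  add := trl_add
  cont := trl_cont
  bound t f := ((trl t).norm_map f).le

lemma lap_pos : 0 < lap := by
  have hi : IntegrableOn (fun s => Real.exp (-s) * ker s) (Ioi 0) := by
    have h := ((Complex.reCLM.comp (rampL.restrictScalars ℝ)).integrable_comp
      (resolvent_integrable isGrp_trl bumpL 0))
    refine h.congr (Eventually.of_forall fun s => ?_)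
    simp [rampL_trl]
  have h1 : ∫ s in Ioi (2 : ℝ), Real.exp (-s) * ker s ≤ lap :=
    setIntegral_mono_set hi (Eventually.of_forall fun s =>
      mul_nonneg (Real.exp_pos _).le (ker_nonneg s))
      (Eventually.of_forall (Ioi_subset_Ioi (by norm_num)))
  have h2 : ∫ s in Ioi (2 : ℝ), Real.exp (-s) * ker s = Real.exp (-2) := by
    rw [← integral_exp_neg_Ioi]
    refine setIntegral_congr_fun measurableSet_Ioi fun s hs => ?_
    simp only [ker_of_two_le (le_of_lt hs), mul_one]
  exact (Real.exp_pos _).trans_le (h2 ▸ h1)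

/-- the fragmentation functional -/
noncomputable def ell : X1 →L[ℂ] ℂ :=
  (c : ℂ) • rampL.comp (J c).toLinearIsometry.toContinuousLinearMap

lemma ell_apply (f : X1) : ell c f = c * rampL (J c f) := rfl

/-- the fragment distribution -/
noncomputable def psi : X1 := (J c).symm bumpL

/-- the fragment density -/
noncomputable def phi (x : ℝ) : ℝ := (den c (zx c x))⁻¹ * bump (zx c x)

lemma phi_nonneg (x : ℝ) : 0 ≤ phi c x := mul_nonneg (inv_pos.mpr (den_pos c _)).le (bump_nonneg _)

lemma measurable_phi : Measurable (phi c) :=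
  ((continuous_den c).measurable.inv.mul measurable_bump).comp (measurable_zx c)

lemma phi_of_one_le {x : ℝ} (h : 1 ≤ x) : phi c x = 0 := by
  rw [phi, bump_of_nonneg (zx_nonneg c h), mul_zero]

lemma psi_ae : ∀ᵐ x ∂massMeasure, psi c x = (phi c x : ℂ) := by
  rw [ae_mass_iff c]
  filter_upwards [Jsymm_ae c bumpL, bumpL_ae] with z h1 h2
  have hd : (den c z : ℂ) ≠ 0 := by exact_mod_cast (den_pos c z).ne'
  rw [phi, zx_xz, psi]
  push_cast
  rw [← h2, ← h1, Complex.real_smul, inv_mul_cancel_left₀ hd]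

lemma ell_resolvent : ell c (∫ s in Ioi 0, Real.exp (-s) • Sg c s (psi c)) = c * lap := by
  have h1 := ((ell c).restrictScalars ℝ).integral_comp_comm
    (resolvent_integrable (isGrp_Sg c) (psi c) 0)
  simp only [ContinuousLinearMap.coe_restrictScalars'] at h1
  rw [← h1, lap, ← integral_complex_ofReal, ← integral_const_mul]
  congr 1
  ext s
  rw [ContinuousLinearMap.map_smul_of_tower, ell_apply, Sg_apply, psi,
    LinearIsometryEquiv.apply_symm_apply, LinearIsometryEquiv.apply_symm_apply, rampL_trl,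
    Complex.real_smul]
  push_cast
  ring

lemma ell_eq_mass (f : X1) : ell c f = ∫ x, fr c x • f x ∂massMeasure := by
  rw [ell_apply, rampL_apply, integral_mass c, ← integral_const_mul]
  refine integral_congr_ae ?_
  filter_upwards [J_ae c f] with z hz
  rw [hz, fr, zx_xz]
  simp only [Complex.real_smul]
  push_cast
  ring

lemma ell_eq (f : X1) : ell c f = ∫ y in Ioi (0 : ℝ), (fr c y : ℂ) * y * f y := by
  rw [ell_eq_mass]
  have := integral_withDensity_eq_integral_smul (μ := volume.restrict (Ioi (0 : ℝ)))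
    (f := fun x : ℝ => x.toNNReal) measurable_real_toNNReal (fun x => fr c x • f x)
  refine this.trans (setIntegral_congr_fun measurableSet_Ioi fun y hy => ?_)
  simp only [NNReal.smul_def, Real.coe_toNNReal _ (le_of_lt hy), Complex.real_smul]
  ring

end Pool.Agent.MP_bbd370_an

end

section

set_option autoImplicit false

open Set MeasureTheory Filter Topology
open scoped ENNReal NNReal

namespace Pool.Agent.MP_bbd370_an

variable (c : ℝ≥0)

lemma isClosed_cone : IsClosed {f : X1 | IsNonneg massMeasure f} := by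
  refine isClosed_of_closure_subset fun f hf => ?_
  obtain ⟨u, hu, hl⟩ := mem_closure_iff_seq_limit.mp hf
  obtain ⟨ns, -, h⟩ := (tendstoInMeasure_of_tendsto_Lp hl).exists_seq_tendsto_ae
  have hcl : IsClosed {w : ℂ | 0 ≤ w.re ∧ w.im = 0} :=
    (isClosed_le continuous_const Complex.continuous_re).inter
      (isClosed_eq Complex.continuous_im continuous_const)
  have hall : ∀ᵐ x ∂massMeasure, ∀ n, 0 ≤ (u n x).re ∧ (u n x).im = 0 := ae_all_iff.mpr hu
  filter_upwards [h, hall] with x h1 h2
  exact hcl.mem_of_tendsto h1 (Eventually.of_forall fun n => h2 _)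

lemma smul_cone (r : ℝ) (f : X1) (hr : 0 ≤ r) (hf : IsNonneg massMeasure f) : IsNonneg massMeasure (r • f) := by
  filter_upwards [hf, Lp.coeFn_smul r f] with x h1 h2
  rw [h2, Pi.smul_apply, Complex.smul_re, Complex.smul_im, h1.2, smul_zero]
  exact ⟨mul_nonneg hr h1.1, rfl⟩

lemma convex_cone : Convex ℝ {f : X1 | IsNonneg massMeasure f} := by
  intro f hf g hg a b ha hb _
  filter_upwards [smul_cone a f ha hf, smul_cone b g hb hg, Lp.coeFn_add (a • f) (b • g)]
    with x h1 h2 h3
  rw [h3, Pi.add_apply, Complex.add_re, Complex.add_im, h1.2, h2.2, add_zero]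
  exact ⟨add_nonneg h1.1 h2.1, rfl⟩

lemma Sg_cone (t : ℝ) (f : X1) (hf : IsNonneg massMeasure f) : IsNonneg massMeasure (Sg c t f) := by
  rw [IsNonneg, ae_mass_iff c] at hf ⊢
  filter_upwards [Sg_ae c t f, ae_sub hf t] with z h1 h2
  have e1 := congrArg Complex.re h1
  have e2 := congrArg Complex.im h1
  simp only [Complex.smul_re, Complex.smul_im, smul_eq_mul, h2.2, mul_zero] at e1 e2
  have hd := den_pos c z
  refine ⟨?_, (mul_eq_zero.mp e2).resolve_left hd.ne'⟩
  have := mul_nonneg (den_pos c (z - t)).le h2.1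
  rw [← e1] at this
  exact nonneg_of_mul_nonneg_right this hd

lemma psi_cone : IsNonneg massMeasure (psi c) := by
  filter_upwards [psi_ae c] with x hx
  rw [hx]
  exact ⟨by simpa using phi_nonneg c x, by simp⟩

lemma fr_nonneg (x : ℝ) : 0 ≤ fr c x := mul_nonneg c.2 (ramp_nonneg _)

lemma ell_cone (f : X1) (hf : IsNonneg massMeasure f) : ∃ r : ℝ, 0 ≤ r ∧ ell c f = r := by
  refine ⟨∫ x, fr c x * (f x).re ∂massMeasure, integral_nonneg_of_ae ?_, ?_⟩
  · filter_upwards [hf] with x hx
    exact mul_nonneg (fr_nonneg c x) hx.1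
  · rw [ell_eq_mass, ← integral_complex_ofReal]
    refine integral_congr_ae ?_
    filter_upwards [hf] with x hx
    apply Complex.ext <;> simp [hx.2]

/-- the fragmentation kernel -/
noncomputable def kern (x y : ℝ) : ℝ := if 1 ≤ y then y * phi c x else 2 / y

lemma kern_mass {y : ℝ} (hy : 0 < y) :
    ∫⁻ x in Ioo 0 y, ENNReal.ofReal (x * kern c x y) = ENNReal.ofReal y := by
  by_cases h : 1 ≤ y
  · simp only [kern, h, if_true]
    have h1 := lintegral_mass c (F := fun x => ENNReal.ofReal (phi c x))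
      (measurable_phi c).ennreal_ofReal
    have h2 : ∀ z, ENNReal.ofReal (den c z) * ENNReal.ofReal (phi c (xz c z))
        = (Ioo (-1 : ℝ) 0).indicator 1 z := by
      intro z
      rw [← ENNReal.ofReal_mul (den_pos c z).le, phi, zx_xz, mul_inv_cancel_left₀ (den_pos c z).ne',
        bump]
      by_cases hz : z ∈ Ioo (-1 : ℝ) 0 <;> simp [hz]
    simp only [h2] at h1
    rw [lintegral_indicator_one measurableSet_Ioo, massMeasure,
      lintegral_withDensity_eq_lintegral_mul _ ENNReal.measurable_ofReal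
        (measurable_phi c).ennreal_ofReal] at h1
    have h3 : ∫⁻ x in Ioo 0 y, ENNReal.ofReal (x * (y * phi c x)) = ∫⁻ x in Ioi 0,
        ENNReal.ofReal y * (ENNReal.ofReal x * ENNReal.ofReal (phi c x)) := by
      rw [← lintegral_indicator measurableSet_Ioo, ← lintegral_indicator measurableSet_Ioi]
      congr 1
      ext x
      by_cases h0 : 0 < x
      · by_cases hxy : x < y
        · rw [indicator_of_mem (show x ∈ Ioo 0 y from ⟨h0, hxy⟩),
            indicator_of_mem (show x ∈ Ioi 0 from h0), ← ENNReal.ofReal_mul h0.le,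
            ← ENNReal.ofReal_mul hy.le, mul_left_comm]
        · rw [indicator_of_notMem (fun hh => hxy hh.2), indicator_of_mem (show x ∈ Ioi 0 from h0),
            phi_of_one_le c (h.trans (not_lt.mp hxy))]
          simp
      · rw [indicator_of_notMem (fun hh => h0 hh.1),
          indicator_of_notMem (show x ∉ Ioi 0 from h0)]
    rw [h3, lintegral_const_mul' _ _ ENNReal.ofReal_ne_top]
    have h4 : ∫⁻ x in Ioi 0, ENNReal.ofReal x * ENNReal.ofReal (phi c x) = 1 := by
      refine Eq.trans ?_ (h1.trans (by simp))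
      rfl
    rw [h4, mul_one]
  · simp only [kern, h, if_false]
    have hi : IntegrableOn (fun x => x * (2 / y)) (Ioo 0 y) :=
      (Continuous.integrableOn_Icc (by fun_prop)).mono_set Ioo_subset_Icc_self
    rw [← ofReal_integral_eq_lintegral_ofReal hi (ae_restrict_of_forall_mem measurableSet_Ioo
      fun x hx => mul_nonneg hx.1.le (by positivity)), ← integral_Ioc_eq_integral_Ioo,
      ← intervalIntegral.integral_of_le hy.le, intervalIntegral.integral_mul_const, integral_id]
    congr 1
    field_simp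
    ring

lemma isData : IsData (gr c) (fr c) (kern c) where
  r_pos _ hx := gr_pos c hx
  r_loc := (continuousOn_inv_gr c).locallyIntegrableOn measurableSet_Ioi
  r_zero := lintegral_inv_gr_top c measurableSet_Ioo Ioo_subset_Ioi_self (by
    rw [← intervalIntegrable_iff_integrableOn_Ioo_of_le zero_le_one, intervalIntegrable_inv_iff]
    simp)
  r_top := lintegral_inv_gr_top c measurableSet_Ioi (Ioi_subset_Ioi zero_le_one)
    not_integrableOn_Ioi_inv
  a_meas := measurable_const.mul (continuous_ramp.measurable.comp (measurable_zx c))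
  a_nonneg x _ := fr_nonneg c x
  b_meas := Measurable.ite (measurableSet_le measurable_const measurable_snd)
    (measurable_snd.mul ((measurable_phi c).comp measurable_fst))
    (measurable_const.div measurable_snd)
  b_nonneg x y hx hxy := by
    have := hx.trans hxy
    unfold kern
    split_ifs
    · exact mul_nonneg this.le (phi_nonneg c x)
    · positivity
  b_mass _ hy := (kern_mass c hy).le

/-- the transport semigroup -/
noncomputable def Ug (t : ℝ) : X1 →L[ℂ] X1 := (Real.exp t : ℂ) • Sg c t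

lemma Ug_apply (t : ℝ) (f : X1) : Ug c t f = Real.exp t • Sg c t f := by
  rw [← smul_one_smul ℂ (Real.exp t) (Sg c t f)]; simp [Ug]

lemma isTransport : IsTransport massMeasure (gr c) (fr c) (fun t f => Ug c t f) := by
  refine ⟨fun y t => xz c (zx c y - t), fun y t hy ht => ⟨⟨xz_pos c _, ?_⟩, ?_⟩, fun t _ f => ?_⟩
  · conv_rhs => rw [← xz_zx c hy]
    exact (xz_strictMono c).monotone (by linarith)
  · rw [integral_inv_gr c (xz_pos c _) hy, zx_xz]; ring
  · beta_reduce
    rw [Ug_apply, EventuallyEq, ae_mass_iff c]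
    filter_upwards [Sg_ae c t f, (ae_mass_iff c _).mp (Lp.coeFn_smul (Real.exp t) (Sg c t f))]
      with z h1 h2
    have hd : HasDerivAt (fun y => xz c (zx c y - t))
        (xz c (zx c (xz c z) - t) * spd c (zx c (xz c z) - t) * (1 / gr c (xz c z))) (xz c z) :=
      (hasDerivAt_xz c _).comp (xz c z) ((hasDerivAt_zx c (xz_pos c z)).sub_const t)
    rw [h2, hd.deriv, integral_fr_gr c (xz_pos c _) (xz_pos c _), gr]
    simp only [zx_xz]
    have e : Real.exp (-(Real.log (xz c z) - z - (Real.log (xz c (z - t)) - (z - t))))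
        = Real.exp t * xz c (z - t) / xz c z := by
      rw [eq_div_iff (xz_pos c z).ne']
      conv_lhs => rw [← Real.exp_log (xz_pos c z), Real.log_exp, ← Real.exp_add]
      conv_rhs => rw [← Real.exp_log (xz_pos c (z - t)), ← Real.exp_add]
      congr 1; ring
    rw [e, Pi.smul_apply]
    have p1 : (xz c z : ℂ) ≠ 0 := by exact_mod_cast (xz_pos c z).ne'
    have p2 : (spd c z : ℂ) ≠ 0 := by exact_mod_cast (spd_pos c z).ne'
    simp only [den, Complex.real_smul] at h1 ⊢
    push_cast at h1 ⊢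
    field_simp
    linear_combination h1

lemma isC0_Ug : IsC0Semigroup (Ug c) where
  zero := by ext1 f; rw [Ug_apply, (isGrp_Sg c).zero]; simp
  add s t _ _ := by
    ext1 f
    rw [mul_apply_eq_comp, Ug_apply, Ug_apply, Ug_apply, ContinuousLinearMap.map_smul_of_tower,
      (isGrp_Sg c).add, smul_smul, Real.exp_add]
  cont f := by
    simp only [Ug_apply]
    exact (Real.continuous_exp.smul ((isGrp_Sg c).cont f)).continuousOn

lemma frag_ae (f : X1) : ∀ᵐ x ∂massMeasure, (ell c f • psi c : X1) x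
    = ∫ y in Ioi x, (fr c y : ℂ) * (kern c x y : ℂ) * f y := by
  have hpos : ∀ᵐ x ∂massMeasure, 0 < x :=
    (ae_mass_iff c _).mpr (Eventually.of_forall (xz_pos c))
  filter_upwards [hpos, psi_ae c, Lp.coeFn_smul (ell c f) (psi c)] with x hx h1 h2
  have hfr : ∀ y, 0 < y → y < 1 → fr c y = 0 := fun y h0 h => by
    rw [fr, ramp_of_nonpos (zx_nonpos c h0 h.le), mul_zero]
  rw [h2, Pi.smul_apply, h1, smul_eq_mul, ell_eq, ← integral_mul_const,
    ← integral_indicator measurableSet_Ioi, ← integral_indicator measurableSet_Ioi]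
  congr 1
  ext y
  by_cases hxy : x < y
  · rw [indicator_of_mem (show y ∈ Ioi x from hxy),
      indicator_of_mem (show y ∈ Ioi 0 from hx.trans hxy), kern]
    split_ifs with h
    · push_cast; ring
    · rw [hfr y (hx.trans hxy) (not_le.mp h)]; simp
  · rw [indicator_of_notMem (show y ∉ Ioi x from hxy)]
    by_cases h0 : 0 < y
    · rw [indicator_of_mem (show y ∈ Ioi 0 from h0)]
      by_cases h : 1 ≤ y
      · rw [phi_of_one_le c (h.trans (not_lt.mp hxy))]; simp
      · rw [hfr y h0 (not_le.mp h)]; simp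
    · rw [indicator_of_notMem (show y ∉ Ioi 0 from h0)]

theorem main : ∃ (r a : ℝ → ℝ) (b : ℝ → ℝ → ℝ) (U V : ℝ → X1 →L[ℂ] X1),
    IsData r a b ∧ ContinuousOn r (Ioi 0) ∧ ContinuousOn a (Ioi 0) ∧ (∃ C, ∀ x, 0 < x → a x ≤ C) ∧
    (∀ y, 0 < y → ∫⁻ x in Ioo 0 y, ENNReal.ofReal (x * b x y) = ENNReal.ofReal y) ∧
    IsTransport massMeasure r a (fun t f => U t f) ∧ IsC0Semigroup U ∧ IsC0Semigroup V ∧
    (∀ t, 0 ≤ t → ∀ f, IsNonneg massMeasure f → IsNonneg massMeasure (V t f)) ∧
    (∀ f g, GenGraph V f g ↔ ∃ h, GenGraph U f h ∧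
      g =ᵐ[massMeasure] fun x => h x + ∫ y in Ioi x, (a y : ℂ) * (b x y : ℂ) * f y) ∧
    HasSpectralGap V := by
  let c : ℝ≥0 := ⟨lap⁻¹, (inv_pos.mpr lap_pos).le⟩
  have h1 : ell c (∫ s in Ioi 0, Real.exp (-s) • Sg c s (psi c)) = 1 := by
    rw [ell_resolvent]
    have : ((c : ℝ) : ℂ) * lap = ((lap⁻¹ * lap : ℝ) : ℂ) := (Complex.ofReal_mul _ _).symm
    rw [inv_mul_cancel₀ lap_pos.ne'] at this
    exact this
  obtain ⟨V, v0, vadd, vc, vpos, vd, vk, e, he, hev⟩ := perturb (isGrp_Sg c) (ell c) (psi c) h1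
    convex_cone isClosed_cone smul_cone (Sg_cone c) (psi_cone c) (ell_cone c)
  refine ⟨gr c, fr c, kern c, Ug c, V, isData c, continuousOn_gr c, continuousOn_fr c,
    ⟨c, fun x _ => mul_le_of_le_one_right c.2 (ramp_le_one _)⟩, fun y hy => kern_mass c hy,
    isTransport c, isC0_Ug c, ⟨v0, fun s t _ _ => vadd s t, fun f => (vc f).continuousOn⟩,
    vpos, fun f g => ?_, 1, 2, one_lt_two, fun t ht => ?_, fun ω M h => ?_⟩
  · have hd : HasDerivWithinAt (fun t => V t f - Ug c t f) (ell c f • psi c) (Ici 0) 0 := by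
      simp only [Ug_apply]
      exact (vd f).hasDerivWithinAt
    constructor
    · intro hg
      refine ⟨g - ell c f • psi c, ?_, ?_⟩
      · have := HasDerivWithinAt.sub hg hd
        exact this.congr (fun t _ => by simp) (by simp)
      · filter_upwards [frag_ae c f, Lp.coeFn_sub g (ell c f • psi c)] with x h2 h3
        rw [h3, Pi.sub_apply, h2, sub_add_cancel]
    · rintro ⟨h, hh, hg⟩
      have e2 : g = h + ell c f • psi c := by
        apply Lp.ext
        filter_upwards [frag_ae c f, Lp.coeFn_add h (ell c f • psi c), hg] with x h2 h3 h4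
        rw [h3, Pi.add_apply, h2, h4]
      have := HasDerivWithinAt.add hh hd
      rw [e2]
      exact this.congr (fun t _ => by simp) (by simp)
  · refine iSup₂_le fun z hz => ?_
    have h2 := mem_iInter₂.mp hz (-(V t - Ug c t)) (vk t ht).neg
    have e2 : V t + -(V t - Ug c t) = Ug c t := by abel
    rw [e2] at h2
    have : Nontrivial X1 := ⟨⟨e, 0, he⟩⟩
    have h3 : ‖Ug c t‖ ≤ Real.exp (1 * t) := by
      refine ContinuousLinearMap.opNorm_le_bound _ (Real.exp_pos _).le fun f => ?_
      rw [Ug_apply, norm_smul, Real.norm_of_nonneg (Real.exp_pos _).le, one_mul]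
      exact mul_le_mul_of_nonneg_left ((isGrp_Sg c).bound t f) (Real.exp_pos _).le
    rw [← ofReal_norm]
    exact ENNReal.ofReal_le_ofReal ((spectrum.norm_le_norm_of_mem h2).trans h3)
  · by_contra hcon
    have hω : 0 < 2 - ω := by linarith [not_le.mp hcon]
    have hb : ∀ t, 0 ≤ t → Real.exp ((2 - ω) * t) ≤ M := by
      intro t ht
      have h2 := (V t).le_opNorm e
      rw [hev, norm_smul, Real.norm_of_nonneg (Real.exp_pos _).le] at h2
      have h3 := (le_of_mul_le_mul_right h2 (norm_pos_iff.mpr he)).trans (h t ht)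
      rwa [sub_mul, Real.exp_sub, div_le_iff₀ (Real.exp_pos _)]
    have h4 := hb (|M| / (2 - ω)) (by positivity)
    rw [mul_div_cancel₀ _ hω.ne'] at h4
    have := Real.add_one_le_exp |M|
    linarith [le_abs_self M]

end Pool.Agent.MP_bbd370_an

end
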